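import Mathlib

set_option autoImplicit false

namespace Pool.Agent.Results.MP_409260_co.Cubic16

/-- The vertex set of the ball of radius `r` about `v`. -/
def ball {V : Type} (G : SimpleGraph V) (v : V) (r : ℕ) : Set V := {u | G.edist v u ≤ r}

lemma self_mem {V : Type} (G : SimpleGraph V) (v : V) (r : ℕ) : v ∈ ball G v r := by
  simp [ball]

/-- All balls of some radius have `k` vertices and are pairwise isomorphic as rooted graphs. -/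
def UniformBalls {V : Type} (G : SimpleGraph V) (k : ℕ) : Prop :=
  ∃ r : ℕ, (∀ v, (ball G v r).ncard = k) ∧
    ∀ u v, ∃ φ : G.induce (ball G u r) ≃g G.induce (ball G v r),
      φ ⟨u, self_mem G u r⟩ = ⟨v, self_mem G v r⟩

/-- Vertex transitivity. -/
def VertexTransitive {V : Type} (G : SimpleGraph V) : Prop :=
  ∀ u v, ∃ φ : G ≃g G, φ u = v

def msk : Fin 16 → ℕ := ![4368, 4384, 5184, 17536, 8705, 8706, 34820, 10248, 16387, 32816, 32780,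
  16576, 7, 176, 2312, 1600]

def adj (a b : Fin 16) : Bool := (msk a).testBit b

def G0 : SimpleGraph (Fin 16) where
  Adj a b := adj a b = true
  symm := ⟨by decide +kernel⟩
  loopless := ⟨by decide +kernel⟩

instance : DecidableRel G0.Adj := fun a b => inferInstanceAs (Decidable (adj a b = true))

def inB (v u : Fin 16) : Prop := v = u ∨ adj v u = true ∨ ∃ w, adj v w = true ∧ adj w u = true

instance (v u : Fin 16) : Decidable (inB v u) := by unfold inB; infer_instance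

lemma mem_ball (v u : Fin 16) : u ∈ ball G0 v 2 ↔ inB v u := by
  constructor
  · intro h
    have h : G0.edist v u ≤ (2 : ℕ) := h
    obtain ⟨p, hp⟩ := SimpleGraph.exists_walk_of_edist_ne_top
      (ne_top_of_le_ne_top (ENat.coe_ne_top 2) h)
    rw [← hp] at h
    have h2 : p.length ≤ 2 := by exact_mod_cast h
    match p, h2 with
    | .nil, _ => exact Or.inl rfl
    | .cons a .nil, _ => exact Or.inr (Or.inl a)
    | .cons a (.cons b .nil), _ => exact Or.inr (Or.inr ⟨_, a, b⟩)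
    | .cons a (.cons b (.cons c q)), h3 => simp at h3
  · rintro (rfl | h | ⟨w, h1, h2⟩)
    · exact self_mem _ _ _
    · exact (SimpleGraph.edist_le (SimpleGraph.Walk.cons (G := G0) h .nil)).trans (by simp)
    · exact (SimpleGraph.edist_le
        (SimpleGraph.Walk.cons (G := G0) h1 (SimpleGraph.Walk.cons (G := G0) h2 .nil))).trans
        (by simp)

def P : Fin 16 → Fin 16 → Fin 16 :=
  ![![0, 1, 2, 3, 4, 5, 6, 7, 8, 9, 10, 11, 12, 13, 14, 15],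
    ![1, 0, 2, 3, 5, 4, 6, 7, 8, 9, 10, 11, 12, 13, 14, 15],
    ![2, 15, 3, 4, 12, 5, 7, 8, 6, 0, 9, 13, 10, 1, 11, 14],
    ![3, 11, 8, 0, 10, 1, 4, 5, 7, 2, 6, 9, 14, 15, 13, 12],
    ![4, 5, 7, 1, 0, 2, 3, 6, 9, 8, 10, 11, 13, 12, 15, 14],
    ![5, 4, 7, 0, 1, 2, 3, 6, 9, 8, 10, 11, 13, 12, 15, 14],
    ![6, 10, 9, 0, 11, 1, 3, 4, 2, 7, 5, 8, 15, 14, 12, 13],
    ![7, 14, 6, 0, 13, 1, 2, 8, 3, 4, 9, 12, 11, 5, 10, 15],
    ![8, 12, 4, 2, 14, 6, 7, 9, 1, 3, 10, 13, 0, 11, 5, 15],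
    ![9, 13, 0, 2, 15, 3, 7, 8, 5, 6, 11, 12, 4, 10, 1, 14],
    ![10, 6, 9, 0, 3, 1, 4, 5, 2, 7, 8, 11, 15, 14, 12, 13],
    ![11, 3, 8, 0, 6, 1, 4, 5, 7, 2, 9, 10, 14, 15, 13, 12],
    ![12, 8, 4, 3, 2, 7, 9, 11, 1, 6, 13, 14, 0, 10, 5, 15],
    ![13, 9, 0, 2, 7, 6, 8, 10, 5, 3, 12, 14, 4, 11, 1, 15],
    ![14, 7, 6, 2, 8, 4, 5, 9, 3, 0, 12, 13, 11, 1, 10, 15],
    ![15, 2, 3, 0, 9, 1, 7, 8, 6, 4, 12, 13, 10, 5, 11, 14]]

def Q : Fin 16 → Fin 16 → Fin 16 :=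
  ![![0, 1, 2, 3, 4, 5, 6, 7, 8, 9, 10, 11, 12, 13, 14, 15],
    ![1, 0, 2, 3, 5, 4, 6, 7, 8, 9, 10, 11, 12, 13, 14, 15],
    ![9, 13, 0, 2, 3, 5, 8, 6, 7, 10, 12, 14, 4, 11, 15, 1],
    ![3, 5, 9, 0, 6, 7, 10, 8, 2, 11, 4, 1, 15, 14, 12, 13],
    ![4, 3, 5, 6, 0, 1, 7, 2, 9, 8, 10, 11, 13, 12, 15, 14],
    ![3, 4, 5, 6, 1, 0, 7, 2, 9, 8, 10, 11, 13, 12, 15, 14],
    ![3, 5, 8, 6, 7, 10, 0, 9, 11, 2, 1, 4, 14, 15, 13, 12],
    ![3, 5, 6, 8, 9, 13, 2, 0, 7, 10, 14, 12, 11, 4, 1, 15],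
    ![12, 8, 3, 9, 2, 14, 5, 6, 0, 7, 10, 13, 1, 11, 4, 15],
    ![2, 14, 3, 5, 12, 8, 9, 6, 7, 0, 13, 10, 11, 1, 15, 4],
    ![3, 5, 8, 4, 6, 7, 1, 9, 10, 2, 0, 11, 14, 15, 13, 12],
    ![3, 5, 9, 1, 6, 7, 4, 8, 2, 10, 11, 0, 15, 14, 12, 13],
    ![12, 8, 4, 3, 2, 14, 9, 5, 1, 6, 13, 7, 0, 10, 11, 15],
    ![2, 14, 3, 9, 12, 8, 5, 4, 6, 1, 7, 13, 10, 0, 11, 15],
    ![9, 13, 3, 8, 5, 6, 2, 1, 4, 7, 14, 12, 10, 11, 0, 15],
    ![3, 5, 1, 2, 9, 13, 8, 6, 7, 4, 12, 14, 10, 11, 15, 0]]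

lemma f1 : ∀ v a, Q v (P v a) = a ∧ P v (Q v a) = a := by decide +kernel
lemma f2 : ∀ v a, inB 0 a ↔ inB v (P v a) := by decide +kernel
lemma f3 : ∀ v a b, inB 0 a → inB 0 b → (adj (P v a) (P v b) = true ↔ adj a b = true) := by
  decide +kernel
lemma f4 : ∀ v, P v 0 = v := by decide +kernel
lemma f5 : ∀ v, (Finset.univ.filter fun u => inB v u).card = 9 := by decide +kernel

def eqv (v : Fin 16) : Fin 16 ≃ Fin 16 := ⟨P v, Q v, fun a => (f1 v a).1, fun a => (f1 v a).2⟩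

def iso (v : Fin 16) : G0.induce (ball G0 0 2) ≃g G0.induce (ball G0 v 2) where
  toEquiv := (eqv v).subtypeEquiv fun a => by
    rw [mem_ball, mem_ball]; exact f2 v a
  map_rel_iff' := by
    rintro ⟨a, ha⟩ ⟨b, hb⟩
    exact f3 v a b ((mem_ball _ _).1 ha) ((mem_ball _ _).1 hb)

lemma iso_root (v : Fin 16) : iso v ⟨0, self_mem _ _ _⟩ = ⟨v, self_mem _ _ _⟩ :=
  Subtype.ext (f4 v)

lemma unif : UniformBalls G0 9 := by
  refine ⟨2, fun v => ?_, fun u v => ⟨(iso u).symm.trans (iso v), ?_⟩⟩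
  · rw [← f5 v, ← Set.ncard_coe_finset]
    congr 1
    ext u
    simp [mem_ball]
  · rw [← iso_root u, ← iso_root v]
    simp

def R3 (v : Fin 16) : Prop :=
  ∀ u, ∃ a b, (v = a ∨ G0.Adj v a) ∧ (a = b ∨ G0.Adj a b) ∧ (b = u ∨ G0.Adj b u)

lemma r0 : R3 0 := by unfold R3; decide +kernel
lemma r2 : ¬ R3 2 := by unfold R3; decide +kernel

lemma notVT : ¬ VertexTransitive G0 := by
  intro h
  obtain ⟨φ, hφ⟩ := h 0 2
  refine r2 fun u => ?_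
  obtain ⟨a, b, h1, h2, h3⟩ := r0 (φ.symm u)
  refine ⟨φ a, φ b, ?_, ?_, ?_⟩
  · rw [← hφ]; exact h1.imp (congrArg φ) φ.map_adj_iff.2
  · exact h2.imp (congrArg φ) φ.map_adj_iff.2
  · rw [← φ.apply_symm_apply u]; exact h3.imp (congrArg φ) φ.map_adj_iff.2

/-- Uniform `k`-balls with `n / 2 < k < n` do not force vertex transitivity. -/
theorem result : ¬ ∀ (n k : ℕ) (G : SimpleGraph (Fin n)), n < 2 * k → k < n →
    UniformBalls G k → VertexTransitive G :=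
  fun h => notVT (h 16 9 G0 (by norm_num) (by norm_num) unif)

end Pool.Agent.Results.MP_409260_co.Cubic16
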